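import Pool.Agent.Helper51.EC2.Fix

set_option autoImplicit false

/-!
Separable additive polynomials over a field with topologically finitely generated absolute Galois
group have finite cokernel.
-/

namespace Pool.Agent.Helper56.AST

open Polynomial Pool.Agent.Helper51.EC2

section additive

variable {F Ω : Type*} [Field F] [Field Ω] [Algebra F Ω] [Infinite F]

/-- translates of an additive polynomial -/
theorem comp_add (A : F[X]) (hA : ∀ x y, A.eval (x + y) = A.eval x + A.eval y) (y : F) :
    A.comp (X + C y) = A + C (A.eval y) := by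
  refine Polynomial.funext fun x => ?_
  simp only [eval_comp, eval_add, eval_X, eval_C]
  exact hA x y

/-- additivity over an extension -/
theorem additive_map (A : F[X]) (hA : ∀ x y, A.eval (x + y) = A.eval x + A.eval y) (x y : Ω) :
    (A.map (algebraMap F Ω)).eval (x + y) =
      (A.map (algebraMap F Ω)).eval x + (A.map (algebraMap F Ω)).eval y := by
  have h1 : ∀ (x : Ω) (y : F), (A.map (algebraMap F Ω)).eval (x + algebraMap F Ω y) =
      (A.map (algebraMap F Ω)).eval x + (A.map (algebraMap F Ω)).eval (algebraMap F Ω y) := by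
    intro x y
    have h := congrArg (fun P => (P.map (algebraMap F Ω)).eval x) (comp_add A hA y)
    simp only [Polynomial.map_comp, Polynomial.map_add, map_X, map_C, eval_comp, eval_add, eval_X,
      eval_C] at h
    rw [h, eval_map_algebraMap, eval_map_algebraMap, aeval_algebraMap_apply,
      coe_aeval_eq_eval]
  have h2 : (A.map (algebraMap F Ω)).comp (C x + X) =
      C ((A.map (algebraMap F Ω)).eval x) + A.map (algebraMap F Ω) := by
    refine Polynomial.eq_of_infinite_eval_eq _ _ ?_
    refine (Set.infinite_range_of_injective (algebraMap F Ω).injective).mono ?_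
    rintro _ ⟨y, rfl⟩
    change ((A.map (algebraMap F Ω)).comp (C x + X)).eval (algebraMap F Ω y) =
      (C ((A.map (algebraMap F Ω)).eval x) + A.map (algebraMap F Ω)).eval (algebraMap F Ω y)
    simp only [eval_comp, eval_add, eval_X, eval_C]
    exact h1 x y
  have h := congrArg (fun P => P.eval y) h2
  simpa only [eval_comp, eval_add, eval_X, eval_C] using h

/-- the derivative of an additive polynomial is constant -/
theorem derivative_additive (A : F[X]) (hA : ∀ x y, A.eval (x + y) = A.eval x + A.eval y) :
    derivative A = C (A.coeff 1) := by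
  refine Polynomial.funext fun y => ?_
  have h := congrArg (fun P => (derivative P).eval 0) (comp_add A hA y)
  simp only [derivative_comp, derivative_add, derivative_X, derivative_C, add_zero,
    eval_mul, eval_one, eval_comp, eval_add, eval_X, eval_C, zero_add, one_mul] at h
  rw [eval_C]
  have h2 : (derivative A).eval 0 = A.coeff 1 := by
    rw [← coeff_zero_eq_eval_zero, coeff_derivative]
    simp
  rw [← h2, ← h]

theorem separable_sub (A : F[X]) (hA : ∀ x y, A.eval (x + y) = A.eval x + A.eval y)
    (h1 : A.coeff 1 ≠ 0) (c : F) : (A - C c).Separable := by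
  refine ⟨0, C (A.coeff 1)⁻¹, ?_⟩
  rw [derivative_sub, derivative_C, sub_zero, derivative_additive A hA, ← C_mul,
    inv_mul_cancel₀ h1, zero_mul, zero_add, C_1]

end additive

/-- the cokernel of a separable additive polynomial is finite -/
theorem exists_reps {F Ω : Type*} [Field F] [Field Ω] [Algebra F Ω] [IsAlgClosed Ω] [Infinite F]
    (hF : FixFG F Ω) (A : F[X]) (hA : ∀ x y, A.eval (x + y) = A.eval x + A.eval y)
    (h1 : A.coeff 1 ≠ 0) :
    ∃ (q : ℕ) (e : Fin q → F), ∀ c, ∃ k d, c = e k + A.eval d := by
  classical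
  obtain ⟨S, hSf, hS⟩ := hF
  set B := A.map (algebraMap F Ω) with hB
  have hB1 : B.coeff 1 ≠ 0 := by
    rw [hB, coeff_map, ne_eq, map_eq_zero]
    exact h1
  have hBadd := additive_map (Ω := Ω) A hA
  rw [← hB] at hBadd
  have hB0 : B.eval 0 = 0 := by
    have := hBadd 0 0
    rw [add_zero] at this
    exact left_eq_add.1 this
  have hBsub : ∀ x y, B.eval (x - y) = B.eval x - B.eval y := by
    intro x y
    have := hBadd (x - y) y
    rw [sub_add_cancel] at this
    rw [this, add_sub_cancel_right]
  have hroot : ∀ x : F, ∃ β : Ω, B.eval β = algebraMap F Ω x := by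
    intro x
    obtain ⟨β, hβ⟩ := IsAlgClosed.exists_root (B - C (algebraMap F Ω x)) (by
      intro h
      have h2 := eq_C_of_degree_le_zero (le_of_eq h)
      have h3 : (B - C (algebraMap F Ω x)).coeff 1 = 0 := by
        rw [h2, coeff_C_succ]
      rw [coeff_sub, coeff_C_succ, sub_zero] at h3
      exact hB1 h3)
    refine ⟨β, ?_⟩
    rw [IsRoot, eval_sub, eval_C] at hβ
    exact sub_eq_zero.1 hβ
  choose β hβ using hroot
  have hBne : B ≠ 0 := by
    intro h
    rw [h, coeff_zero] at hB1
    exact hB1 rfl
  let W : Set Ω := {w | B.IsRoot w}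
  have hWf : W.Finite := by
    refine (B.roots.toFinset.finite_toSet).subset fun w hw => ?_
    rw [Finset.mem_coe, Multiset.mem_toFinset, mem_roots hBne]
    exact hw
  have hσ : ∀ (σ : Ω ≃ₐ[F] Ω) (z : Ω), B.eval (σ z) = σ (B.eval z) := by
    intro σ z
    rw [hB, eval_map_algebraMap, eval_map_algebraMap]
    exact aeval_algHom_apply σ z A
  have hw : ∀ (x : F) (σ : S), (σ : Ω ≃ₐ[F] Ω) (β x) - β x ∈ W := by
    intro x σ
    change B.eval _ = 0
    rw [hBsub, hσ, hβ, AlgEquiv.commutes, sub_self]
  have : Finite S := hSf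
  have : Finite W := hWf
  let r : F → (S → W) := fun x σ => ⟨_, hw x σ⟩
  have key : ∀ x x' : F, r x = r x' → ∃ d, x - x' = A.eval d := by
    intro x x' hxx
    have hfix : ∀ σ ∈ S, σ (β x - β x') = β x - β x' := by
      intro σ hσS
      have e1 := congrArg Subtype.val (congrFun hxx ⟨σ, hσS⟩)
      change σ (β x) - β x = σ (β x') - β x' at e1
      rw [map_sub]
      linear_combination e1
    have has : B.eval (β x - β x') = algebraMap F Ω (x - x') := by
      rw [hBsub, hβ, hβ, map_sub]
    have hsep : IsSeparable F (β x - β x') := by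
      refine (separable_sub A hA h1 (x - x')).of_dvd (minpoly.dvd F _ ?_)
      rw [map_sub, aeval_C, ← has, hB, eval_map_algebraMap, sub_self]
    obtain ⟨c, hc⟩ := hS _ hsep hfix
    refine ⟨c, ?_⟩
    apply (algebraMap F Ω).injective
    rw [← has, ← hc, hB, eval_map_algebraMap, aeval_algebraMap_apply, coe_aeval_eq_eval]
  obtain ⟨q, ⟨eq⟩⟩ := Finite.exists_equiv_fin (S → W)
  refine ⟨q, fun k => if h : ∃ x, r x = eq.symm k then h.choose else 0, fun c => ?_⟩
  refine ⟨eq (r c), ?_⟩
  have hex : ∃ x, r x = eq.symm (eq (r c)) := ⟨c, by rw [Equiv.symm_apply_apply]⟩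
  have h2 : r c = r hex.choose := by
    rw [hex.choose_spec, Equiv.symm_apply_apply]
  obtain ⟨d, hd⟩ := key _ _ h2
  refine ⟨d, ?_⟩
  beta_reduce
  rw [dif_pos hex, ← hd]
  ring

/-- a field with topologically finitely generated absolute Galois group -/
theorem fixFG_self {K : Type*} [Field K]
    (hK : ∃ S : Set (Field.absoluteGaloisGroup K), S.Finite ∧
      closure ((Subgroup.closure S : Subgroup (Field.absoluteGaloisGroup K)) :
        Set (Field.absoluteGaloisGroup K)) = Set.univ) :
    FixFG K (AlgebraicClosure K) := by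
  change ∃ S : Set (AlgebraicClosure K ≃ₐ[K] AlgebraicClosure K), S.Finite ∧
      closure ((Subgroup.closure S : Subgroup (AlgebraicClosure K ≃ₐ[K] AlgebraicClosure K)) :
        Set (AlgebraicClosure K ≃ₐ[K] AlgebraicClosure K)) = Set.univ at hK
  obtain ⟨S, hSf, hS⟩ := hK
  refine ⟨S, hSf, fun z hsep hz => mem_of_fixed' z hsep fun σ => ?_⟩
  have hopen : IsOpen (MulAction.stabilizer (AlgebraicClosure K ≃ₐ[K] AlgebraicClosure K) z :
      Set (AlgebraicClosure K ≃ₐ[K] AlgebraicClosure K)) :=
    stabilizer_isOpen_of_isIntegral z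
  have hclosed : IsClosed (MulAction.stabilizer (AlgebraicClosure K ≃ₐ[K] AlgebraicClosure K) z :
      Set (AlgebraicClosure K ≃ₐ[K] AlgebraicClosure K)) :=
    Subgroup.isClosed_of_isOpen _ hopen
  have hle : Subgroup.closure S ≤
      MulAction.stabilizer (AlgebraicClosure K ≃ₐ[K] AlgebraicClosure K) z :=
    (Subgroup.closure_le _).2 fun σ hσ => hz σ hσ
  have h2 : closure ((Subgroup.closure S :
      Subgroup (AlgebraicClosure K ≃ₐ[K] AlgebraicClosure K)) :
        Set (AlgebraicClosure K ≃ₐ[K] AlgebraicClosure K)) ⊆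
      MulAction.stabilizer (AlgebraicClosure K ≃ₐ[K] AlgebraicClosure K) z :=
    closure_minimal hle hclosed
  rw [hS] at h2
  exact h2 (Set.mem_univ σ)

end Pool.Agent.Helper56.AST
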