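import Mathlib

set_option autoImplicit false

/-!
Polynomial functions of bounded degree from a finite power of `ZMod p` to a field of
characteristic `p`, and the splitting of such a function along an additive map with finite
cokernel.
-/

namespace Pool.Agent.Helper56.AST

open MvPolynomial

variable {K : Type*} [Field K] {p : ℕ} [Fact p.Prime] [Algebra (ZMod p) K]

/-- `PF D g`: the function `g` on `(ZMod p)^N` is a `K`-linear combination of polynomials over
`ZMod p` of total degree at most `D`. -/
inductive PF {N : ℕ} (D : ℕ) : ((Fin N → ZMod p) → K) → Prop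
  | base (c : K) (M : MvPolynomial (Fin N) (ZMod p)) (hM : M.totalDegree ≤ D) :
      PF D (fun X => c * algebraMap (ZMod p) K (eval X M))
  | add {g h : (Fin N → ZMod p) → K} (hg : PF D g) (hh : PF D h) : PF D (fun X => g X + h X)

namespace PF

variable {N : ℕ} {D D' : ℕ} {g h : (Fin N → ZMod p) → K}

theorem const (D : ℕ) (c : K) : PF (p := p) (N := N) D (fun _ => c) := by
  have h := PF.base (N := N) (D := D) c (1 : MvPolynomial (Fin N) (ZMod p)) (by simp)
  simpa using h

theorem mono (hD : D ≤ D') (hg : PF D g) : PF D' g := by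
  induction hg with
  | base c M hM => exact PF.base c M (hM.trans hD)
  | add _ _ ih1 ih2 => exact PF.add ih1 ih2

theorem base_mul (c : K) (M : MvPolynomial (Fin N) (ZMod p)) (hM : M.totalDegree ≤ D)
    (hh : PF D' h) : PF (D + D') (fun X => (c * algebraMap (ZMod p) K (eval X M)) * h X) := by
  induction hh with
  | base c' M' hM' =>
    have e : (fun X => (c * algebraMap (ZMod p) K (eval X M)) *
        (c' * algebraMap (ZMod p) K (eval X M'))) =
        fun X => (c * c') * algebraMap (ZMod p) K (eval X (M * M')) := by
      funext X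
      rw [map_mul, map_mul]
      ring
    rw [e]
    exact PF.base _ _ ((totalDegree_mul _ _).trans (add_le_add hM hM'))
  | add _ _ ih1 ih2 =>
    have := PF.add ih1 ih2
    simpa only [mul_add] using this

theorem mul (hg : PF D g) (hh : PF D' h) : PF (D + D') (fun X => g X * h X) := by
  induction hg with
  | base c M hM => exact base_mul c M hM hh
  | add _ _ ih1 ih2 =>
    have := PF.add ih1 ih2
    simpa only [add_mul] using this

theorem sum {ι : Type*} (s : Finset ι) (G : ι → (Fin N → ZMod p) → K)
    (hG : ∀ i ∈ s, PF D (G i)) : PF D (fun X => ∑ i ∈ s, G i X) := by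
  classical
  induction s using Finset.induction_on with
  | empty => simpa using const (K := K) (p := p) (N := N) D 0
  | insert a s ha ih =>
    have h1 := PF.add (hG a (Finset.mem_insert_self a s))
      (ih fun i hi => hG i (Finset.mem_insert_of_mem hi))
    have e : (fun X => ∑ i ∈ insert a s, G i X) = fun X => G a X + ∑ i ∈ s, G i X := by
      funext X
      rw [Finset.sum_insert ha]
    rw [e]
    exact h1

theorem lin (a : K) (v : Fin N → K) :
    PF (p := p) 1 (fun X => a + ∑ i, algebraMap (ZMod p) K (X i) * v i) := by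
  refine PF.add (const 1 a) (sum _ _ fun i _ => ?_)
  have h := PF.base (D := 1) (v i) (X i : MvPolynomial (Fin N) (ZMod p))
    (by rw [totalDegree_X])
  have e : (fun Y : Fin N → ZMod p => v i * algebraMap (ZMod p) K (eval Y (X i))) =
      fun Y => algebraMap (ZMod p) K (Y i) * v i := by
    funext Y
    rw [eval_X, mul_comm]
  rw [e] at h
  exact h

end PF

/-- a polynomial applied to polynomial functions of bounded degree -/
theorem exists_deg_eval {σ : Type*} (f : MvPolynomial σ K) (D : ℕ) :
    ∃ D' : ℕ, ∀ (N : ℕ) (P : σ → (Fin N → ZMod p) → K), (∀ s, PF D (P s)) →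
      PF D' (fun X => eval (fun s => P s X) f) := by
  induction f using MvPolynomial.induction_on with
  | C a =>
    refine ⟨0, fun N P _ => ?_⟩
    simpa using PF.const (K := K) (p := p) (N := N) 0 a
  | add f g ihf ihg =>
    obtain ⟨D1, h1⟩ := ihf
    obtain ⟨D2, h2⟩ := ihg
    refine ⟨max D1 D2, fun N P hP => ?_⟩
    have := PF.add ((h1 N P hP).mono (le_max_left D1 D2)) ((h2 N P hP).mono (le_max_right D1 D2))
    simpa only [map_add] using this
  | mul_X f s ih =>
    obtain ⟨D1, h1⟩ := ih
    refine ⟨D1 + D, fun N P hP => ?_⟩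
    have := (h1 N P hP).mul (hP s)
    simpa only [map_mul, eval_X] using this

/-- an additive map is linear over the prime field -/
theorem map_mul_zmod (A : K →+ K) (d : K) (x : ZMod p) :
    A (d * algebraMap (ZMod p) K x) = A d * algebraMap (ZMod p) K x := by
  obtain ⟨n, rfl⟩ : ∃ n : ℕ, (n : ZMod p) = x := ⟨x.val, ZMod.natCast_zmod_val x⟩
  rw [map_natCast, mul_comm, ← nsmul_eq_mul, map_nsmul, nsmul_eq_mul, mul_comm]

/-- splitting of a polynomial function along an additive map with finite cokernel -/
theorem exists_split (A : K →+ K) {q : ℕ} (e : Fin q → K) (he : ∀ c, ∃ k d, c = e k + A d)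
    {N D : ℕ} {g : (Fin N → ZMod p) → K} (hg : PF D g) :
    ∃ L : Fin q → MvPolynomial (Fin N) (ZMod p), (∀ k, (L k).totalDegree ≤ D) ∧
      ∃ g' : (Fin N → ZMod p) → K, PF D g' ∧
        ∀ X, g X = ∑ k, algebraMap (ZMod p) K (eval X (L k)) * e k + A (g' X) := by
  classical
  induction hg with
  | base c M hM =>
    obtain ⟨k, d, hc⟩ := he c
    refine ⟨fun i => if i = k then M else 0, fun i => ?_,
      fun X => d * algebraMap (ZMod p) K (eval X M), PF.base d M hM, fun X => ?_⟩
    · by_cases h : i = k
      · simp only [if_pos h]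
        exact hM
      · simp only [if_neg h, totalDegree_zero]
        exact Nat.zero_le _
    · dsimp only
      rw [Finset.sum_eq_single k]
      · rw [if_pos rfl, map_mul_zmod, hc]
        ring
      · intro i _ hi
        rw [if_neg hi, map_zero, map_zero, zero_mul]
      · intro h
        exact absurd (Finset.mem_univ k) h
  | add _ _ ih1 ih2 =>
    obtain ⟨L1, hL1, g1, hg1, h1⟩ := ih1
    obtain ⟨L2, hL2, g2, hg2, h2⟩ := ih2
    refine ⟨fun k => L1 k + L2 k, fun k => (totalDegree_add _ _).trans (max_le (hL1 k) (hL2 k)),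
      fun X => g1 X + g2 X, PF.add hg1 hg2, fun X => ?_⟩
    dsimp only
    rw [h1 X, h2 X, map_add]
    simp only [map_add, add_mul, Finset.sum_add_distrib]
    ring

/-- the same, with the polynomials vanishing at the origin, when the value at the origin is in the
image of the additive map -/
theorem exists_split_zero (A : K →+ K) {q : ℕ} (e : Fin q → K) (he : ∀ c, ∃ k d, c = e k + A d)
    {N D : ℕ} {g : (Fin N → ZMod p) → K} (hg : PF D g) (y : K) (hy : g 0 = A y) :
    ∃ L : Fin q → MvPolynomial (Fin N) (ZMod p), (∀ k, (L k).totalDegree ≤ D) ∧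
      (∀ k, eval 0 (L k) = 0) ∧
      ∃ g' : (Fin N → ZMod p) → K, PF D g' ∧ g' 0 = y ∧
        ∀ X, (∀ k, eval X (L k) = 0) → g X = A (g' X) := by
  obtain ⟨L, hL, g', hg', h⟩ := exists_split A e he hg
  refine ⟨fun k => L k - C (eval 0 (L k)), fun k => ?_, fun k => ?_,
    fun X => g' X + (y - g' 0), PF.add hg' (PF.const D _), ?_, fun X hX => ?_⟩
  · refine (totalDegree_sub _ _).trans (max_le (hL k) ?_)
    rw [totalDegree_C]
    exact Nat.zero_le _
  · rw [map_sub, eval_C, sub_self]
  · ring
  · have h0 := h 0
    rw [hy] at h0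
    have h1 : ∀ k, eval X (L k) = eval 0 (L k) := fun k => by
      have := hX k
      rw [map_sub, eval_C] at this
      exact sub_eq_zero.1 this
    rw [map_add, map_sub, h X, h0]
    simp only [h1]
    ring

end Pool.Agent.Helper56.AST
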