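import Pool.Agent.Helper56.AST.Poly

set_option autoImplicit false

/-!
Towers of additive covers of affine space: a solution of the tower propagates, by the
Chevalley-Warning theorem.
-/

namespace Pool.Agent.Helper56.AST

open MvPolynomial

variable {K : Type*} [Field K] {p : ℕ} [Fact p.Prime] [Algebra (ZMod p) K]

/-- the points `x0 + ∑ X_i v_i` -/
def pt {N n : ℕ} (x0 : Fin n → K) (v : Fin N → Fin n → K) (X : Fin N → ZMod p) (s : Fin n) : K :=
  x0 s + ∑ i, algebraMap (ZMod p) K (X i) * v i s

theorem pt_zero {N n : ℕ} (x0 : Fin n → K) (v : Fin N → Fin n → K) (s : Fin n) :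
    pt (p := p) x0 v 0 s = x0 s := by
  simp [pt]

/-- the induction along the tower -/
theorem tower (A : ℕ → K →+ K) {n : ℕ} (f : (j : ℕ) → MvPolynomial (Fin n ⊕ Fin j) K)
    (x0 : Fin n → K) (y0 : ℕ → K) (m : ℕ)
    (hA : ∀ j < m, ∃ (q : ℕ) (e : Fin q → K), ∀ c, ∃ k d, c = e k + A j d)
    (h0 : ∀ j < m, A j (y0 j) = eval (Sum.elim x0 (fun i : Fin j => y0 i)) (f j)) :
    ∃ D C : ℕ, ∀ (N : ℕ) (v : Fin N → Fin n → K),
      ∃ L : Fin C → MvPolynomial (Fin N) (ZMod p), (∀ k, (L k).totalDegree ≤ D) ∧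
        (∀ k, eval 0 (L k) = 0) ∧
        ∃ P : ℕ → (Fin N → ZMod p) → K, (∀ j, PF D (P j)) ∧ (∀ j < m, P j 0 = y0 j) ∧
          ∀ X, (∀ k, eval X (L k) = 0) → ∀ j < m,
            A j (P j X) = eval (Sum.elim (pt x0 v X) (fun i : Fin j => P i X)) (f j) := by
  classical
  induction m with
  | zero =>
    refine ⟨0, 0, fun N v => ⟨fun k => k.elim0, fun k => k.elim0, fun k => k.elim0,
      fun _ _ => 0, fun _ => PF.const 0 0, fun j hj => absurd hj (Nat.not_lt_zero j),
      fun X _ j hj => absurd hj (Nat.not_lt_zero j)⟩⟩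
  | succ m ih =>
    obtain ⟨D, C, ih⟩ := ih (fun j hj => hA j (Nat.lt_succ_of_lt hj))
      (fun j hj => h0 j (Nat.lt_succ_of_lt hj))
    obtain ⟨q, e, he⟩ := hA m (Nat.lt_succ_self m)
    obtain ⟨D', hD'⟩ := exists_deg_eval (p := p) (f m) (max D 1)
    refine ⟨max D D', C + q, fun N v => ?_⟩
    obtain ⟨L, hLd, hL0, P, hPd, hP0, hP⟩ := ih N v
    -- the function `G`
    have hG : PF D' (fun X : Fin N → ZMod p =>
        eval (fun s => Sum.elim (fun s X => pt x0 v X s) (fun (i : Fin m) X => P i X) s X)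
          (f m)) := by
      refine hD' N (Sum.elim (fun s X => pt x0 v X s) (fun (i : Fin m) X => P i X)) ?_
      rintro (s | i)
      · exact (PF.lin (x0 s) (fun i => v i s)).mono (le_max_right _ _)
      · exact (hPd i).mono (le_max_left _ _)
    have hGe : (fun X : Fin N → ZMod p =>
        eval (fun s => Sum.elim (fun s X => pt x0 v X s) (fun (i : Fin m) X => P i X) s X)
          (f m)) = fun X => eval (Sum.elim (pt x0 v X) (fun i : Fin m => P i X)) (f m) := by
      funext X
      refine congrArg (fun w => eval w (f m)) ?_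
      funext s
      rcases s with s | i <;> rfl
    rw [hGe] at hG
    obtain ⟨L', hLd', hL0', g', hg', hg0, hg⟩ := exists_split_zero (A m) e he hG (y0 m) (by
      rw [h0 m (Nat.lt_succ_self m)]
      refine congrArg (fun w => eval w (f m)) ?_
      funext s
      rcases s with s | i
      · exact pt_zero x0 v s
      · exact hP0 i i.2)
    refine ⟨Fin.append L L', fun k => ?_, fun k => ?_, Function.update P m g', fun j => ?_,
      fun j hj => ?_, fun X hX j hj => ?_⟩
    · induction k using Fin.addCases with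
      | left k =>
        rw [Fin.append_left]
        exact (hLd k).trans (le_max_left _ _)
      | right k =>
        rw [Fin.append_right]
        exact (hLd' k).trans (le_max_right _ _)
    · induction k using Fin.addCases with
      | left k =>
        rw [Fin.append_left]
        exact hL0 k
      | right k =>
        rw [Fin.append_right]
        exact hL0' k
    · by_cases h : j = m
      · subst h
        rw [Function.update_self]
        exact hg'.mono (le_max_right _ _)
      · rw [Function.update_of_ne h]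
        exact (hPd j).mono (le_max_left _ _)
    · by_cases h : j = m
      · subst h
        rw [Function.update_self]
        exact hg0
      · rw [Function.update_of_ne h]
        exact hP0 j (lt_of_le_of_ne (Nat.lt_succ_iff.1 hj) h)
    · have hX1 : ∀ k, eval X (L k) = 0 := fun k => by
        have := hX (Fin.castAdd q k)
        rwa [Fin.append_left] at this
      have hX2 : ∀ k, eval X (L' k) = 0 := fun k => by
        have := hX (Fin.natAdd C k)
        rwa [Fin.append_right] at this
      have hne : ∀ i : Fin j, (i : ℕ) ≠ m := fun i =>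
        ne_of_lt (lt_of_lt_of_le i.2 (Nat.lt_succ_iff.1 hj))
      have e1 : (fun i : Fin j => Function.update P m g' i X) = fun i : Fin j => P i X := by
        funext i
        rw [Function.update_of_ne (hne i)]
      rw [e1]
      by_cases h : j = m
      · subst h
        rw [Function.update_self]
        exact (hg X hX2).symm
      · rw [Function.update_of_ne h]
        exact hP X hX1 j (lt_of_le_of_ne (Nat.lt_succ_iff.1 hj) h)

/-- general position: the points `x0 + ∑ X_i v_i`, `X ≠ 0`, avoid a hypersurface -/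
theorem exists_general [Infinite K] {n : ℕ} (x0 : Fin n → K) (F : MvPolynomial (Fin n) K)
    (hF : F ≠ 0) (N : ℕ) :
    ∃ v : Fin N → Fin n → K, ∀ X : Fin N → ZMod p, X ≠ 0 → eval (pt x0 v X) F ≠ 0 := by
  classical
  obtain ⟨z, hz⟩ : ∃ z, eval z F ≠ 0 := by
    by_contra hcon
    push Not at hcon
    exact hF (MvPolynomial.funext fun z => by rw [hcon z, map_zero])
  let Q : (Fin N → ZMod p) → MvPolynomial (Fin N × Fin n) K := fun X =>
    aeval (fun s => C (x0 s) + ∑ i, C (algebraMap (ZMod p) K (X i)) * MvPolynomial.X (i, s)) F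
  have hQ : ∀ (X : Fin N → ZMod p) (w : Fin N × Fin n → K),
      eval w (Q X) = eval (pt x0 (fun i s => w (i, s)) X) F := by
    intro X w
    have h2 : eval w (Q X) = eval (fun s => eval w (C (x0 s) + ∑ i,
        C (algebraMap (ZMod p) K (X i)) * MvPolynomial.X (i, s))) F := by
      change eval w (aeval _ F) = _
      rw [← coe_aeval_eq_eval, ← coe_aeval_eq_eval]
      simp only [RingHom.coe_coe]
      rw [← AlgHom.comp_apply, comp_aeval]
    rw [h2]
    refine congrArg (fun u => eval u F) ?_
    funext s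
    simp only [map_add, map_sum, map_mul, eval_C, eval_X]
    rfl
  have hQ0 : ∀ X : Fin N → ZMod p, X ≠ 0 → Q X ≠ 0 := by
    intro X hX h
    obtain ⟨i0, hi0⟩ : ∃ i, X i ≠ 0 := by
      by_contra hcon
      push Not at hcon
      exact hX (funext hcon)
    have h1 := hQ X (fun t => if t.1 = i0 then
      (algebraMap (ZMod p) K (X i0))⁻¹ * (z t.2 - x0 t.2) else 0)
    rw [h, map_zero] at h1
    apply hz
    rw [h1]
    refine congrArg (fun u => eval u F) ?_
    funext s
    rw [pt, Finset.sum_eq_single i0]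
    · rw [if_pos rfl, mul_inv_cancel_left₀]
      · ring
      · rw [ne_eq, map_eq_zero]
        exact hi0
    · intro i _ hi
      rw [if_neg hi, mul_zero]
    · intro hh
      exact absurd (Finset.mem_univ i0) hh
  have hprod : (∏ X ∈ (Finset.univ : Finset (Fin N → ZMod p)).filter (fun X => X ≠ 0), Q X) ≠ 0 :=
    Finset.prod_ne_zero_iff.2 fun X hX => hQ0 X (Finset.mem_filter.1 hX).2
  obtain ⟨w, hw⟩ : ∃ w, eval w
      (∏ X ∈ (Finset.univ : Finset (Fin N → ZMod p)).filter (fun X => X ≠ 0), Q X) ≠ 0 := by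
    by_contra hcon
    push Not at hcon
    exact hprod (MvPolynomial.funext fun z => by rw [hcon z, map_zero])
  rw [map_prod, Finset.prod_ne_zero_iff] at hw
  refine ⟨fun i s => w (i, s), fun X hX => ?_⟩
  rw [← hQ]
  exact hw X (Finset.mem_filter.2 ⟨Finset.mem_univ X, hX⟩)

/-- the main theorem for additive maps with finite cokernel -/
theorem dense_of_finite_coker {K : Type*} [Field K] (p : ℕ) [Fact p.Prime] [Algebra (ZMod p) K]
    [Infinite K] (A : ℕ → K →+ K) {n : ℕ}
    (f : (j : ℕ) → MvPolynomial (Fin n ⊕ Fin j) K) (x0 : Fin n → K) (y0 : ℕ → K) (m : ℕ)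
    (hA : ∀ j < m, ∃ (q : ℕ) (e : Fin q → K), ∀ c, ∃ k d, c = e k + A j d)
    (h0 : ∀ j < m, A j (y0 j) = eval (Sum.elim x0 (fun i : Fin j => y0 i)) (f j))
    (F : MvPolynomial (Fin n) K) (hF : F ≠ 0) :
    ∃ (x : Fin n → K) (y : ℕ → K),
      (∀ j < m, A j (y j) = eval (Sum.elim x (fun i : Fin j => y i)) (f j)) ∧
        eval x F ≠ 0 := by
  classical
  obtain ⟨D, C, h⟩ := tower (p := p) A f x0 y0 m hA h0
  obtain ⟨v, hv⟩ := exists_general (p := p) x0 F hF (C * D + 1)
  obtain ⟨L, hLd, hL0, P, -, -, hP⟩ := h (C * D + 1) v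
  have hsum : (∑ k, (L k).totalDegree) < Fintype.card (Fin (C * D + 1)) := by
    rw [Fintype.card_fin, Nat.lt_succ_iff]
    calc ∑ k, (L k).totalDegree ≤ ∑ _k : Fin C, D := Finset.sum_le_sum fun k _ => hLd k
      _ = C * D := by rw [Finset.sum_const, Finset.card_univ, Fintype.card_fin, smul_eq_mul]
  have hdvd : p ∣ Nat.card {x : Fin (C * D + 1) → ZMod p // ∀ k, eval x (L k) = 0} := by
    have h1 := char_dvd_card_solutions_of_fintype_sum_lt (K := ZMod p) p hsum
    rw [Nat.card_eq_fintype_card]
    convert h1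
  have hcard : 1 < Nat.card {x : Fin (C * D + 1) → ZMod p // ∀ k, eval x (L k) = 0} := by
    have hne : Nonempty {x : Fin (C * D + 1) → ZMod p // ∀ k, eval x (L k) = 0} := ⟨⟨0, hL0⟩⟩
    exact lt_of_lt_of_le (Fact.out : p.Prime).one_lt (Nat.le_of_dvd Nat.card_pos hdvd)
  rw [Nat.card_eq_fintype_card] at hcard
  obtain ⟨⟨X, hX⟩, hne⟩ := Fintype.exists_ne_of_one_lt_card hcard ⟨0, hL0⟩
  have hX0 : X ≠ 0 := fun h => hne (Subtype.ext h)
  exact ⟨pt x0 v X, fun j => P j X, hP X hX, hv X hX0⟩

end Pool.Agent.Helper56.AST
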